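import Pool.Agent.TH192.DT.Fin
import Pool.Agent.TH192.DT.Generic

set_option autoImplicit false
set_option linter.unusedSectionVars false
set_option linter.unusedVariables false

/-! # Flags of determinantal ideals: the charts

The chart at a general point of the divisor over the locus where the first `h` rows of the generic
`m × n` matrix have rank at most `d`. -/

namespace Pool.Agent.J6H66.FM

open MvPowerSeries Pool.Agent.W574.SM Pool.Agent.TH192.DT

variable {m n : ℕ}

/-- the entries of the rows which are free: the base point is `lam` on the diagonal -/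
noncomputable def fr (lam : ℂ) (i : Fin m) (k : Fin n) : MvPowerSeries (Fin m × Fin n) ℂ :=
  C (if (i : ℕ) = k then lam else 0) + X (i, k)

open Classical in
/-- the coordinates on the exceptional divisor -/
noncomputable def yy (z : Fin m × Fin n) (i : Fin m) (k : Fin n) :
    MvPowerSeries (Fin m × Fin n) ℂ :=
  C (if (i : ℕ) = k then 1 else 0) + if (i, k) = z then 0 else X (i, k)

/-- the matrix with the rows `d ≤ i < h` multiplied by `w` -/
noncomputable def psi (d h : ℕ) (lam : ℂ) (z : Fin m × Fin n)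
    (w : MvPowerSeries (Fin m × Fin n) ℂ) (i : Fin m) (k : Fin n) :
    MvPowerSeries (Fin m × Fin n) ℂ :=
  if d ≤ (i : ℕ) ∧ (i : ℕ) < h then (if d ≤ (k : ℕ) then w * yy z i k else 0) else fr lam i k

/-- the chart -/
noncomputable def xi (d h : ℕ) (hdm : d ≤ m) (hdn : d ≤ n) (lam : ℂ) (z : Fin m × Fin n)
    (t : Fin m × Fin n) : MvPowerSeries (Fin m × Fin n) ℂ :=
  (if d ≤ (t.1 : ℕ) ∧ (t.1 : ℕ) < h then
    ∑ a : Fin d, X (t.1, Fin.castLE hdn a) * fr lam (Fin.castLE hdm a) t.2 else 0)
    + psi d h lam z (X z) t.1 t.2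

section Minors

variable {d h : ℕ} {hdm : d ≤ m} {hdn : d ≤ n} {lam : ℂ} {z : Fin m × Fin n} {q : ℕ}

theorem aeval_sub (r : Fin q → Fin m) (c : Fin q → Fin n) :
    MvPolynomial.aeval (xi d h hdm hdn lam z) ((genericMatrix m n).submatrix r c).det
      = (Matrix.of fun i j => xi d h hdm hdn lam z (r i, c j)).det := by
  rw [AlgHom.map_det]
  congr 1
  ext1 i j
  rw [AlgHom.mapMatrix_apply, Matrix.map_apply, Matrix.submatrix_apply, genericMatrix,
    Matrix.of_apply, Matrix.of_apply, MvPolynomial.aeval_X]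

/-- the minors which contain the first `d` rows -/
theorem det_rows (r : Fin q → Fin m) (c : Fin q → Fin n)
    (hr : Function.Injective r) (p : Fin d → Fin q) (hp : ∀ a, r (p a) = Fin.castLE hdm a) :
    (Matrix.of fun i j => xi d h hdm hdn lam z (r i, c j)).det
      = X z ^ (Finset.univ.filter fun i => d ≤ (r i : ℕ) ∧ (r i : ℕ) < h).card *
        (Matrix.of fun i j => psi d h lam z 1 (r i) (c j)).det := by
  classical
  set Q : Matrix (Fin q) (Fin q) (MvPowerSeries (Fin m × Fin n) ℂ) := Matrix.of fun i j =>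
    (if i = j then 1 else 0) + if d ≤ (r i : ℕ) ∧ (r i : ℕ) < h then
      ∑ a : Fin d, if j = p a then X (r i, Fin.castLE hdn a) else 0 else 0 with hQ
  set W : Matrix (Fin q) (Fin q) (MvPowerSeries (Fin m × Fin n) ℂ) := Matrix.diagonal fun i =>
    if d ≤ (r i : ℕ) ∧ (r i : ℕ) < h then X z else 1 with hW
  have hpd : ∀ a, ¬ (d ≤ (r (p a) : ℕ) ∧ (r (p a) : ℕ) < h) := by
    intro a h1
    rw [hp a] at h1
    have := a.2
    simp at h1
    omega
  have h1 : (Matrix.of fun i j => xi d h hdm hdn lam z (r i, c j))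
      = Q * (W * Matrix.of fun i j => psi d h lam z 1 (r i) (c j)) := by
    have h2 : W * (Matrix.of fun i j => psi d h lam z 1 (r i) (c j))
        = Matrix.of fun i j => psi d h lam z (X z) (r i) (c j) := by
      ext1 i j
      rw [hW, Matrix.diagonal_mul, Matrix.of_apply, Matrix.of_apply, psi, psi]
      split_ifs <;> simp
    rw [h2]
    ext1 i j
    rw [Matrix.mul_apply, Matrix.of_apply, xi]
    simp only [hQ, Matrix.of_apply, add_mul, Finset.sum_add_distrib]
    rw [add_comm]
    congr 1
    · rw [Finset.sum_eq_single i]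
      · rw [if_pos rfl, one_mul]
      · intro b _ hb
        rw [if_neg (Ne.symm hb), zero_mul]
      · intro h0; exact absurd (Finset.mem_univ _) h0
    · by_cases hi : d ≤ (r i : ℕ) ∧ (r i : ℕ) < h
      · simp only [if_pos hi, Finset.sum_mul]
        rw [Finset.sum_comm]
        refine Finset.sum_congr rfl fun a _ => ?_
        rw [Finset.sum_eq_single (p a)]
        · rw [if_pos rfl, psi, if_neg (hpd a), hp a]
        · intro b _ hb
          rw [if_neg hb, zero_mul]
        · intro h0; exact absurd (Finset.mem_univ _) h0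
      · simp only [if_neg hi, zero_mul, Finset.sum_const_zero]
  have h3 : Q.det = 1 := by
    rw [det_of_rank Q (fun i => if d ≤ (r i : ℕ) ∧ (r i : ℕ) < h then 0 else 1)]
    · refine Finset.prod_eq_one fun i _ => ?_
      rw [hQ, Matrix.of_apply, if_pos rfl]
      split_ifs with hi
      · rw [Finset.sum_eq_zero, add_zero]
        intro a _
        rw [if_neg]
        rintro rfl
        exact hpd a hi
      · rw [add_zero]
    · intro t i hti hb
      rw [hQ, Matrix.of_apply, if_neg hti, zero_add]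
      split_ifs with ht
      · refine Finset.sum_eq_zero fun a _ => ?_
        rw [if_neg]
        rintro rfl
        simp only [if_pos ht, if_neg (hpd a)] at hb
        omega
      · rfl
  have h4 : W.det = X z ^ (Finset.univ.filter fun i => d ≤ (r i : ℕ) ∧ (r i : ℕ) < h).card := by
    rw [hW, Matrix.det_diagonal, Finset.prod_ite, Finset.prod_const_one, mul_one,
      Finset.prod_const]
  rw [h1, Matrix.det_mul, Matrix.det_mul, h3, one_mul, h4]

/-- all minors: the order -/
theorem dvd_rows (r : Fin q → Fin m) (c : Fin q → Fin n) :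
    X z ^ (q - (d + (Finset.univ.filter fun i => h ≤ (r i : ℕ)).card)) ∣
      (Matrix.of fun i j => xi d h hdm hdn lam z (r i, c j)).det := by
  classical
  set s := (Finset.univ.filter fun i => h ≤ (r i : ℕ)).card with hs
  rcases Nat.lt_or_ge q (d + s) with hq | hq
  · rw [Nat.sub_eq_zero_of_le hq.le, pow_zero]
    exact one_dvd _
  let A := Fin d ⊕ {i : Fin q // h ≤ (r i : ℕ)}
  let U : Matrix (Fin q) A (MvPowerSeries (Fin m × Fin n) ℂ) := Matrix.of fun i a =>
    Sum.elim (fun a : Fin d => if h ≤ (r i : ℕ) then 0 else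
      if d ≤ (r i : ℕ) then X (r i, Fin.castLE hdn a) else
        if r i = Fin.castLE hdm a then 1 else 0) (fun j => if j.1 = i then 1 else 0) a
  let V : Matrix A (Fin q) (MvPowerSeries (Fin m × Fin n) ℂ) := Matrix.of fun a j =>
    Sum.elim (fun a : Fin d => fr lam (Fin.castLE hdm a) (c j))
      (fun i => fr lam (r i.1) (c j)) a
  let Q : Matrix (Fin q) (Fin q) (MvPowerSeries (Fin m × Fin n) ℂ) := Matrix.of fun i j =>
    if d ≤ (r i : ℕ) ∧ (r i : ℕ) < h ∧ d ≤ (c j : ℕ) then yy z (r i) (c j) else 0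
  have h1 : (Matrix.of fun i j => xi d h hdm hdn lam z (r i, c j))
      = U * V + (X z : MvPowerSeries (Fin m × Fin n) ℂ) • Q := by
    ext1 i j
    rw [Matrix.add_apply, Matrix.mul_apply, Fintype.sum_sum_type, Matrix.smul_apply,
      smul_eq_mul, Matrix.of_apply, xi, psi]
    simp only [U, V, Q, Matrix.of_apply, Sum.elim_inl, Sum.elim_inr]
    by_cases h2 : h ≤ (r i : ℕ)
    · have h3 : ¬ (d ≤ (r i : ℕ) ∧ (r i : ℕ) < h) := fun h4 => absurd h4.2 (not_lt.2 h2)
      have h4 : ¬ (d ≤ (r i : ℕ) ∧ (r i : ℕ) < h ∧ d ≤ (c j : ℕ)) :=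
        fun h4 => absurd h4.2.1 (not_lt.2 h2)
      rw [if_neg h3, if_neg h3, if_neg h4, mul_zero, add_zero, zero_add]
      simp only [if_pos h2, zero_mul, Finset.sum_const_zero, zero_add]
      rw [Finset.sum_eq_single (⟨i, h2⟩ : {i : Fin q // h ≤ (r i : ℕ)})]
      · rw [if_pos rfl, one_mul]
      · intro b _ hb
        rw [if_neg, zero_mul]
        intro h5
        exact hb (Subtype.ext h5)
      · intro h0; exact absurd (Finset.mem_univ _) h0
    · have h0 : ∑ x : {i : Fin q // h ≤ (r i : ℕ)},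
          (if x.1 = i then (1 : MvPowerSeries (Fin m × Fin n) ℂ) else 0) * fr lam (r x.1) (c j)
          = 0 := by
        refine Finset.sum_eq_zero fun x _ => ?_
        rw [if_neg, zero_mul]
        rintro h5
        exact h2 (h5 ▸ x.2)
      rw [h0, add_zero]
      simp only [if_neg h2]
      by_cases h3 : d ≤ (r i : ℕ)
      · have h4 : d ≤ (r i : ℕ) ∧ (r i : ℕ) < h := ⟨h3, not_le.1 h2⟩
        simp only [if_pos h3, if_pos h4]
        congr 1
        by_cases h5 : d ≤ (c j : ℕ)
        · rw [if_pos h5, if_pos ⟨h4.1, h4.2, h5⟩]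
        · rw [if_neg h5, if_neg fun h6 => h5 h6.2.2, mul_zero]
      · have h4 : ¬ (d ≤ (r i : ℕ) ∧ (r i : ℕ) < h) := fun h4 => h3 h4.1
        simp only [if_neg h3, if_neg h4, zero_add]
        rw [if_neg fun h6 => h3 h6.1, mul_zero, add_zero,
          Finset.sum_eq_single (⟨r i, not_le.1 h3⟩ : Fin d)]
        · have h5 : Fin.castLE hdm (⟨r i, not_le.1 h3⟩ : Fin d) = r i := Fin.ext rfl
          rw [h5, if_pos rfl, one_mul]
        · intro b _ hb
          rw [if_neg, zero_mul]
          intro h5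
          apply hb
          ext
          simp [h5]
        · intro h0; exact absurd (Finset.mem_univ _) h0
  have h2 := det_rank_add U V Q (X z : MvPowerSeries (Fin m × Fin n) ℂ)
  have h3 : Fintype.card A = d + s := by
    rw [Fintype.card_sum, Fintype.card_fin, Fintype.card_subtype]
  rw [← h1, h3, Fintype.card_fin] at h2
  have h4 : (X z : MvPowerSeries (Fin m × Fin n) ℂ) ^ q
      = X z ^ (d + s) * X z ^ (q - (d + s)) := by
    rw [← pow_add]
    congr 1
    omega
  rw [h4, mul_assoc] at h2
  exact ⟨_, mul_left_cancel₀ (pow_ne_zero _ (X_ne0 _)) h2⟩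

end Minors

section Jets

variable {d h : ℕ} {hdm : d ≤ m} {hdn : d ≤ n} {lam : ℂ} {z : Fin m × Fin n} {q : ℕ}

open Classical in
theorem jet_X (l t : Fin m × Fin n) : jet l (X t : MvPowerSeries (Fin m × Fin n) ℂ)
    = TrivSqZeroExt.inr (if l = t then 1 else 0) := by
  rw [jet_apply, constantCoeff_X, TrivSqZeroExt.inl_zero, zero_add]
  congr 1
  by_cases h : l = t
  · rw [if_pos h, h, pderiv_X_self, map_one]
  · rw [if_neg h, pderiv_X_of_ne (Ne.symm h), map_zero]

theorem jet_C (l : Fin m × Fin n) (c : ℂ) : jet l (C c : MvPowerSeries (Fin m × Fin n) ℂ)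
    = TrivSqZeroExt.inl c := by
  rw [jet_apply, constantCoeff_C, pderiv_C, map_zero, TrivSqZeroExt.inr_zero, add_zero]

/-- the constant coefficients of the entries -/
noncomputable def k0 (d h : ℕ) (lam : ℂ) (i : Fin m) (k : Fin n) : ℂ :=
  if (i : ℕ) = k then (if d ≤ (i : ℕ) ∧ (i : ℕ) < h then 1 else lam) else 0

theorem jet_psi (l : Fin m × Fin n) (i : Fin m) (k : Fin n) :
    ∃ e : ℂ, jet l (psi d h lam z 1 i k)
      = TrivSqZeroExt.inl (k0 d h lam i k) + TrivSqZeroExt.inr e := by
  refine ⟨constantCoeff (pderiv ℂ l (psi d h lam z 1 i k)), ?_⟩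
  rw [jet_apply]
  congr 2
  rw [psi, k0]
  by_cases h1 : d ≤ (i : ℕ) ∧ (i : ℕ) < h
  · rw [if_pos h1, if_pos h1]
    by_cases h2 : d ≤ (k : ℕ)
    · rw [if_pos h2, one_mul, yy, map_add, constantCoeff_C]
      have h3 : constantCoeff (if (i, k) = z then 0 else X (i, k) :
          MvPowerSeries (Fin m × Fin n) ℂ) = 0 := by
        split_ifs
        · exact map_zero _
        · exact constantCoeff_X _
      rw [h3, add_zero]
    · rw [if_neg h2, map_zero, if_neg]
      omega
  · rw [if_neg h1, if_neg h1, fr, map_add, constantCoeff_C, constantCoeff_X, add_zero]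

theorem cc_psi (i : Fin m) (k : Fin n) :
    constantCoeff (psi d h lam z 1 i k) = k0 d h lam i k := by
  obtain ⟨e, he⟩ := jet_psi (d := d) (h := h) (lam := lam) (z := z) (i, k) i k
  rw [← jet_fst (i, k), he]
  simp

/-- the determinant of a matrix which is diagonal at the base point -/
theorem jet_det (l : Fin m × Fin n) (r : Fin q → Fin m) (c : Fin q → Fin n)
    (hrc : ∀ i j, i ≠ j → (r i : ℕ) ≠ c j) :
    jet l (Matrix.of fun i j => psi d h lam z 1 (r i) (c j)).det
      = ∏ i, jet l (psi d h lam z 1 (r i) (c i)) := by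
  rw [RingHom.map_det, det_offdiag]
  · rfl
  · intro i j k k' hij hkm
    rw [RingHom.mapMatrix_apply, Matrix.map_apply, Matrix.map_apply, Matrix.of_apply,
      Matrix.of_apply]
    obtain ⟨e1, h1⟩ := jet_psi (d := d) (h := h) (lam := lam) (z := z) l (r i) (c j)
    obtain ⟨e2, h2⟩ := jet_psi (d := d) (h := h) (lam := lam) (z := z) l (r k) (c k')
    rw [h1, h2, k0, k0, if_neg (hrc i j hij), if_neg (hrc k k' hkm)]
    simp

theorem prod_k0 (hlam : lam ≠ 0) {s : ℕ} (κ : Fin s → Fin m) (κ' : Fin s → Fin n)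
    (hκ : ∀ a, (κ a : ℕ) = κ' a) : ∏ a, k0 d h lam (κ a) (κ' a) ≠ 0 := by
  refine Finset.prod_ne_zero_iff.2 fun a _ => ?_
  rw [k0, if_pos (hκ a)]
  split_ifs
  · exact one_ne_zero
  · exact hlam

theorem prod_jet (l : Fin m × Fin n) {s : ℕ} (κ : Fin s → Fin m) (κ' : Fin s → Fin n) :
    ∃ e : ℂ, (∏ a, jet l (psi d h lam z 1 (κ a) (κ' a)))
      = TrivSqZeroExt.inl (∏ a, k0 d h lam (κ a) (κ' a)) + TrivSqZeroExt.inr e := by
  classical
  refine ⟨(∏ a, jet l (psi d h lam z 1 (κ a) (κ' a))).snd, ?_⟩
  have h1 : (∏ a, jet l (psi d h lam z 1 (κ a) (κ' a))).fst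
      = ∏ a, k0 d h lam (κ a) (κ' a) := by
    have h2 : ∀ x : DualNumber ℂ, x.fst = TrivSqZeroExt.fstHom ℂ ℂ ℂ x := fun _ => rfl
    rw [h2, map_prod]
    refine Finset.prod_congr rfl fun a _ => ?_
    obtain ⟨e, he⟩ := jet_psi (d := d) (h := h) (lam := lam) (z := z) l (κ a) (κ' a)
    rw [← h2, he]
    simp
  rw [← h1]
  exact (TrivSqZeroExt.inl_fst_add_inr_snd_eq _).symm

/-- the leading minors -/
theorem lead (hlam : lam ≠ 0) (hqm : q ≤ m) (hqn : q ≤ n) (hdh : d ≤ h) :
    ∃ U, constantCoeff U ≠ 0 ∧ (Matrix.of fun i j : Fin q => xi d h hdm hdn lam z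
      (Fin.castLE hqm i, Fin.castLE hqn j)).det = X z ^ (min q h - d) * U := by
  classical
  refine ⟨(Matrix.of fun i j : Fin q => psi d h lam z 1 (Fin.castLE hqm i)
    (Fin.castLE hqn j)).det, ?_, ?_⟩
  · intro h0
    rcases Nat.eq_zero_or_pos m with hm | hm
    · subst hm
      obtain rfl : q = 0 := by omega
      simp at h0
    rcases Nat.eq_zero_or_pos n with hn | hn
    · subst hn
      obtain rfl : q = 0 := by omega
      simp at h0
    let l : Fin m × Fin n := (⟨0, hm⟩, ⟨0, hn⟩)
    have h1 := jet_det (d := d) (h := h) (lam := lam) (z := z) l (fun i : Fin q => Fin.castLE hqm i)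
      (fun i : Fin q => Fin.castLE hqn i) (fun i j hij hv => hij (Fin.ext (by simpa using hv)))
    obtain ⟨e, h2⟩ := prod_jet (d := d) (h := h) (lam := lam) (z := z) l
      (fun i : Fin q => Fin.castLE hqm i) (fun i : Fin q => Fin.castLE hqn i)
    have hu := prod_k0 (d := d) (h := h) hlam (fun i : Fin q => Fin.castLE hqm i)
      (fun i : Fin q => Fin.castLE hqn i) (fun a => by simp)
    rw [h2] at h1
    have h3 := congrArg TrivSqZeroExt.fst h1
    rw [jet_fst, h0] at h3
    simp at h3
    exact hu h3.symm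
  · rcases Nat.lt_or_ge q d with hq | hq
    · have h1 : min q h - d = 0 := by omega
      rw [h1, pow_zero, one_mul]
      congr 1
      ext1 i j
      have h2 : ¬ (d ≤ ((Fin.castLE hqm i : Fin m) : ℕ) ∧ ((Fin.castLE hqm i : Fin m) : ℕ) < h) := by
        have := i.2
        simp
        omega
      rw [Matrix.of_apply, Matrix.of_apply, xi, if_neg h2, zero_add, psi, psi, if_neg h2,
        if_neg h2]
    · rw [det_rows (fun i : Fin q => Fin.castLE hqm i) (fun i : Fin q => Fin.castLE hqn i)
        (Fin.castLE_injective hqm) (fun a : Fin d => Fin.castLE hq a) (fun a => Fin.ext (by simp))]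
      congr 2
      have h1 : (Finset.univ.filter fun i : Fin q => d ≤ ((Fin.castLE hqm i : Fin m) : ℕ) ∧
          ((Fin.castLE hqm i : Fin m) : ℕ) < h).card
          = (Finset.Ico d (min q h)).card := by
        refine Finset.card_bij (fun i _ => (i : ℕ)) ?_ ?_ ?_
        · intro i hi
          rw [Finset.mem_filter] at hi
          have := i.2
          rw [Finset.mem_Ico]
          simp at hi
          omega
        · intro i _ j _ hij
          exact Fin.ext hij
        · intro b hb
          rw [Finset.mem_Ico] at hb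
          refine ⟨⟨b, by omega⟩, ?_, rfl⟩
          rw [Finset.mem_filter]
          refine ⟨Finset.mem_univ _, ?_⟩
          simp
          omega
      rw [h1, Nat.card_Ico]

end Jets

end Pool.Agent.J6H66.FM
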