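import Pool.Agent.J6H66.FM.Gives

set_option autoImplicit false
set_option linter.unusedSectionVars false
set_option linter.unusedVariables false

/-! # Flags of determinantal ideals: the roots of the Bernstein-Sato polynomials -/

namespace Pool.Agent.J6H66.FM

open MvPowerSeries Pool.Agent.W574.SM Pool.Agent.TH192.DT

/-- The last row of the block of the row `q`: the least element of `R` which is at least `q`. -/
noncomputable def blockEnd (R : Finset ℕ) (q : ℕ) : ℕ := sInf {r | r ∈ R ∧ q ≤ r}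

/-- The last row of the blocks before the block of the row `q`: the largest element of `R` which is
smaller than `q`, or `0`. -/
noncomputable def blockStart (R : Finset ℕ) (q : ℕ) : ℕ := (R.filter (· < q)).sup id

theorem blockEnd_mem {R : Finset ℕ} {q : ℕ} (h : ∃ r ∈ R, q ≤ r) :
    blockEnd R q ∈ R ∧ q ≤ blockEnd R q :=
  Nat.sInf_mem (s := {r | r ∈ R ∧ q ≤ r}) h

theorem blockEnd_le {R : Finset ℕ} {q r : ℕ} (hr : r ∈ R) (hq : q ≤ r) : blockEnd R q ≤ r :=
  Nat.sInf_le (s := {r | r ∈ R ∧ q ≤ r}) ⟨hr, hq⟩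

theorem le_blockStart {R : Finset ℕ} {q r : ℕ} (hr : r ∈ R) (hq : r < q) :
    r ≤ blockStart R q :=
  Finset.le_sup (f := id) (Finset.mem_filter.2 ⟨hr, hq⟩)

theorem blockStart_le {R : Finset ℕ} {q x : ℕ} (h : ∀ r ∈ R, r < q → r ≤ x) :
    blockStart R q ≤ x :=
  Finset.sup_le fun r hr => h r (Finset.mem_filter.1 hr).1 (Finset.mem_filter.1 hr).2

/-- The indices of the generators of the ideal `J_q` of the `m × n` matrix with the blocks of rows
which are given by `R`: `q` rows, which are in the first `blockEnd R q` rows and contain the first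
`blockStart R q` rows, and `q` columns. -/
abbrev FIdx (R : Finset ℕ) (m n q : ℕ) : Type :=
  {rc : (Fin q ↪o Fin m) × (Fin q ↪o Fin n) // (∀ p, (rc.1 p : ℕ) < blockEnd R q) ∧
    ∀ i : Fin m, (i : ℕ) < blockStart R q → ∃ p, rc.1 p = i}

/-- The generators of `J_q`: the `q`-minors of the first `blockEnd R q` rows of the generic `m × n`
matrix which contain the first `blockStart R q` rows. -/
noncomputable def flagMinor (R : Finset ℕ) (m n q : ℕ) (J : FIdx R m n q) :
    MvPolynomial (Fin m × Fin n) ℂ :=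
  minorsOf (genericMatrix m n) q J.1

variable {R : Finset ℕ} {m n : ℕ}

theorem det_mem {q : ℕ} (r : Fin q → Fin m) (c : Fin q → Fin n) (hr : Function.Injective r)
    (h1 : ∀ p, (r p : ℕ) < blockEnd R q)
    (h2 : ∀ i : Fin m, (i : ℕ) < blockStart R q → ∃ p, r p = i) :
    ((genericMatrix m n).submatrix r c).det ∈
      Submodule.span ℂ (Set.range (flagMinor R m n q)) := by
  classical
  by_cases hc : Function.Injective c
  · obtain ⟨r0, π1, hr0⟩ := exists_sort r hr
    obtain ⟨c0, π2, hc0⟩ := exists_sort c hc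
    have h3 : (genericMatrix m n).submatrix r c
        = (((genericMatrix m n).submatrix r0 c0).submatrix π1 id).submatrix id π2 := by
      ext1 i j
      simp only [Matrix.submatrix_apply, id_eq, hr0, hc0]
    have h5 : ∀ p, r0 p = r (π1.symm p) := by
      intro p
      rw [hr0, Equiv.apply_symm_apply]
    have h6 : (∀ p, (r0 p : ℕ) < blockEnd R q) ∧
        ∀ i : Fin m, (i : ℕ) < blockStart R q → ∃ p, r0 p = i := by
      refine ⟨fun p => by rw [h5]; exact h1 _, fun i hi => ?_⟩
      obtain ⟨p, hp⟩ := h2 i hi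
      exact ⟨π1 p, by rw [← hr0]; exact hp⟩
    have h4 : ((genericMatrix m n).submatrix r c).det = (((Equiv.Perm.sign π2 : ℤ) : ℂ) *
        ((Equiv.Perm.sign π1 : ℤ) : ℂ)) • flagMinor R m n q ⟨(r0, c0), h6⟩ := by
      rw [h3, Matrix.det_permute', Matrix.det_permute, flagMinor, minorsOf, Algebra.smul_def]
      simp only [map_mul, map_intCast]
      ring
    rw [h4]
    exact Submodule.smul_mem _ _ (Submodule.subset_span ⟨_, rfl⟩)
  · rw [Function.not_injective_iff] at hc
    obtain ⟨i, j, hij, hne⟩ := hc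
    have h3 : ((genericMatrix m n).submatrix r c).det = 0 := by
      rw [← Matrix.det_transpose]
      refine Matrix.det_zero_of_row_eq hne ?_
      funext k
      simp only [Matrix.transpose_apply, Matrix.submatrix_apply, hij]
    rw [h3]
    exact Submodule.zero_mem _

section Order

variable {d : ℕ} {hdm : d ≤ m} {hdn : d ≤ n} {lam : ℂ} {z : Fin m × Fin n}

/-- the order of `J_q` along the divisor -/
theorem hasOrd (hlam : lam ≠ 0) (hR : ∀ r ∈ R, r ≤ m) (hd : ∃ r ∈ R, d + 1 ≤ r) {q : ℕ}
    (hq0 : 0 < q) (hqR : ∃ r ∈ R, q ≤ r) (hqn : q ≤ n) :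
    HasOrd z (xi d (blockEnd R (d + 1)) hdm hdn lam z) (min q (blockEnd R (d + 1)) - d)
      (flagMinor R m n q) := by
  classical
  obtain ⟨he1, he2⟩ := blockEnd_mem hd
  obtain ⟨hf1, hf2⟩ := blockEnd_mem hqR
  have hqm : q ≤ m := by
    obtain ⟨r, hr, hqr⟩ := hqR
    exact hqr.trans (hR r hr)
  refine ⟨fun J => ?_, ?_⟩
  · obtain ⟨⟨r, c⟩, hJ1, hJ2⟩ := J
    change X z ^ _ ∣ MvPolynomial.aeval _ ((genericMatrix m n).submatrix r c).det
    rw [aeval_sub]
    refine dvd_trans (pow_dvd_pow _ ?_) (dvd_rows (fun i => r i) (fun i => c i))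
    rcases Nat.lt_or_ge (blockEnd R (d + 1)) q with hq | hq
    · -- a later block
      have h1 : blockEnd R (d + 1) ≤ blockStart R q := le_blockStart he1 hq
      have h2 : blockEnd R (d + 1) + (Finset.univ.filter fun i => blockEnd R (d + 1) ≤
          (r i : ℕ)).card ≤ q := by
        have h3 := Finset.card_filter_add_card_filter_not (s := (Finset.univ : Finset (Fin q)))
          (fun i => blockEnd R (d + 1) ≤ (r i : ℕ))
        rw [Finset.card_univ, Fintype.card_fin] at h3
        have h4 : blockEnd R (d + 1) ≤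
            (Finset.univ.filter fun i => ¬ blockEnd R (d + 1) ≤ (r i : ℕ)).card := by
          have h5 : Finset.range (blockEnd R (d + 1)) ⊆ (Finset.univ.filter fun i =>
              ¬ blockEnd R (d + 1) ≤ (r i : ℕ)).image fun i => (r i : ℕ) := by
            intro a ha
            rw [Finset.mem_range] at ha
            obtain ⟨p, hp⟩ := hJ2 ⟨a, lt_of_lt_of_le ha (hR _ he1)⟩ (lt_of_lt_of_le ha h1)
            refine Finset.mem_image.2 ⟨p, Finset.mem_filter.2 ⟨Finset.mem_univ _, ?_⟩, ?_⟩
            · have hp' : (r p : Fin m) = ⟨a, lt_of_lt_of_le ha (hR _ he1)⟩ := hp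
              rw [hp']
              exact not_le.2 ha
            · have hp' : (r p : Fin m) = ⟨a, lt_of_lt_of_le ha (hR _ he1)⟩ := hp
              rw [hp']
          have h6 := (Finset.card_le_card h5).trans Finset.card_image_le
          rwa [Finset.card_range] at h6
        omega
      omega
    · rcases Nat.lt_or_ge d q with hdq | hdq
      · -- the same block
        have h1 : blockEnd R q = blockEnd R (d + 1) :=
          le_antisymm (blockEnd_le he1 hq) (blockEnd_le hf1 (by omega))
        have h2 : (Finset.univ.filter fun i => blockEnd R (d + 1) ≤ (r i : ℕ)).card = 0 := by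
          rw [Finset.card_eq_zero, Finset.filter_eq_empty_iff]
          intro i _
          have h3 := hJ1 i
          rw [h1] at h3
          exact not_le.2 h3
        omega
      · omega
  · obtain ⟨U, hU, h1⟩ := lead (d := d) (h := blockEnd R (d + 1)) (hdm := hdm) (hdn := hdn)
      (z := z) hlam hqm hqn (by omega)
    refine ⟨_, det_mem (R := R) (fun i : Fin q => Fin.castLE hqm i)
      (fun i : Fin q => Fin.castLE hqn i) (Fin.castLE_injective hqm) (fun p => ?_)
      (fun i hi => ?_), U, hU, ?_⟩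
    · exact lt_of_lt_of_le p.2 hf2
    · have h2 : blockStart R q ≤ q := blockStart_le fun r _ hr => hr.le
      exact ⟨⟨i, lt_of_lt_of_le hi h2⟩, Fin.ext rfl⟩
    · rw [aeval_sub]
      exact h1

end Order

/-- **The roots which come from the divisor of index `d`.** -/
theorem roots_d (hR : ∀ r ∈ R, r ≤ m) {τ : Type} [Fintype τ] [DecidableEq τ] (q : τ → ℕ)
    (hq0 : ∀ x, 0 < q x) (hqR : ∀ x, ∃ r ∈ R, q x ≤ r) (hqn : ∀ x, q x ≤ n) (d : ℕ) (x0 : τ)
    (h0 : q x0 = d + 1 ∨ (d + 1 < q x0 ∧ q x0 < blockEnd R (d + 1) ∧ q x0 < n))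
    (b : Polynomial ℂ) (H : MvPolynomial (Fin m × Fin n) ℂ)
    (hb : Pool.Agent.W574.LM.IsLocEq H (prodFam fun x => flagMinor R m n (q x)) b)
    (hH : MvPolynomial.constantCoeff H ≠ 0) (l : ℕ)
    (hl : l < ∑ x, (min (q x) (blockEnd R (d + 1)) - d)) :
    b.eval (-((((blockEnd R (d + 1) - d) * (n - d) : ℕ) : ℂ) + l) /
      (∑ x, (min (q x) (blockEnd R (d + 1)) - d) : ℕ)) = 0 := by
  classical
  have hd : ∃ r ∈ R, d + 1 ≤ r := by
    obtain ⟨r, hr, hr2⟩ := hqR x0
    exact ⟨r, hr, by omega⟩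
  obtain ⟨he1, he2⟩ := blockEnd_mem hd
  have hhm : blockEnd R (d + 1) ≤ m := hR _ he1
  have hdm : d < m := by omega
  have hdn : d < n := by
    have := hqn x0
    omega
  have hdq : d < q x0 := by omega
  have hqh : q x0 ≤ blockEnd R (d + 1) := by omega
  have hfe : blockEnd R (q x0) = blockEnd R (d + 1) :=
    le_antisymm (blockEnd_le he1 hqh)
      (blockEnd_le (blockEnd_mem (hqR x0)).1 (by have := (blockEnd_mem (hqR x0)).2; omega))
  obtain ⟨lam, hlam, hlH⟩ := exists_scale H hH (fun t : Fin m × Fin n =>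
    if (t.1 : ℕ) = t.2 ∧ ¬ (d ≤ (t.1 : ℕ) ∧ (t.1 : ℕ) < blockEnd R (d + 1)) then 1 else 0)
  let z : Fin m × Fin n := (⟨d, hdm⟩, ⟨d, hdn⟩)
  obtain ⟨U0, hU0, hJ⟩ := jac (hdm := hdm.le) (hdn := hdn.le) (z := z) hlam hhm rfl rfl
    (by omega : d < blockEnd R (d + 1))
  have hord : ∀ x, HasOrd z (xi d (blockEnd R (d + 1)) hdm.le hdn.le lam z)
      (min (q x) (blockEnd R (d + 1)) - d) (flagMinor R m n (q x)) := fun x =>
    hasOrd hlam hR hd (hq0 x) (hqR x) (hqn x)
  have h1m : d + 1 ≤ m := hdm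
  obtain ⟨U2, hU2, h2⟩ := lead (d := d) (h := blockEnd R (d + 1)) (hdm := hdm.le)
    (hdn := hdn.le) (z := z) hlam (q := d + 1) hdm hdn (by omega)
  have h3 : min (d + 1) (blockEnd R (d + 1)) - d = 1 := by omega
  rw [h3] at h2
  have hν : 0 < (blockEnd R (d + 1) - d) * (n - d) := Nat.mul_pos (by omega) (by omega)
  have h4 : (((blockEnd R (d + 1) - d) * (n - d) - 1 : ℕ) : ℂ) + 1
      = (((blockEnd R (d + 1) - d) * (n - d) : ℕ) : ℂ) := by
    have h5 : (blockEnd R (d + 1) - d) * (n - d) - 1 + 1 = (blockEnd R (d + 1) - d) * (n - d) := by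
      omega
    exact_mod_cast h5
  rw [← h4]
  refine rees_span _ b H hb z (xi d (blockEnd R (d + 1)) hdm.le hdn.le lam z) ?_
    ((blockEnd R (d + 1) - d) * (n - d) - 1) _ l hl U0 (U2 ^ l) hU0 ?_ hJ
    (hasOrd_prod _ _ _ _ hord) (((genericMatrix m n).submatrix (fun i : Fin (d + 1) =>
      Fin.castLE hdm i) (fun i : Fin (d + 1) => Fin.castLE hdn i)).det ^ l) ?_ ?_
  · rw [cc_aeval]
    have h5 : (fun t => constantCoeff (xi d (blockEnd R (d + 1)) hdm.le hdn.le lam z t))
        = fun t : Fin m × Fin n => lam * (if (t.1 : ℕ) = t.2 ∧ ¬ (d ≤ (t.1 : ℕ) ∧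
          (t.1 : ℕ) < blockEnd R (d + 1)) then 1 else 0) := by
      funext t
      rw [cc_xi]
    rw [h5]
    exact hlH
  · rw [map_pow]
    exact pow_ne_zero _ hU2
  · rw [map_pow, aeval_sub, h2, mul_pow, pow_one]
  · intro t ht
    by_cases hE : IsE d (blockEnd R (d + 1)) t
    · right
      refine gives_prod _ _ _ _ hord x0 t ?_
      have h6 : min (q x0) (blockEnd R (d + 1)) - d = q x0 - d := by omega
      rw [h6]
      refine gives (hdm := hdm.le) (hdn := hdn.le) (flagMinor R m n (q x0)) ?_ hlam hhm rfl rfl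
        (by omega) hdq ?_ t ht hE
      · intro r c hr hr1 hr2
        refine det_mem r c hr (fun p => by rw [hfe]; exact hr2 p) (fun i hi => ?_)
        have h7 : blockStart R (q x0) ≤ d := by
          refine blockStart_le fun r hr hrq => ?_
          by_contra h8
          have := blockEnd_le hr (by omega : d + 1 ≤ r)
          omega
        obtain ⟨p, hp⟩ := hr1 ⟨i, lt_of_lt_of_le hi h7⟩
        exact ⟨p, by rw [hp]; exact Fin.ext rfl⟩
      · rcases h0 with h0 | h0
        · exact Or.inl h0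
        · exact Or.inr ⟨h0.2.1, h0.2.2⟩
    · left
      exact coord_nonexc hlam t hE ht

end Pool.Agent.J6H66.FM
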