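import Pool.Agent.J6H66.FM.Jac

set_option autoImplicit false
set_option linter.unusedSectionVars false
set_option linter.unusedVariables false

/-! # Flags of determinantal ideals: the exceptional coordinates are given by minors -/

namespace Pool.Agent.J6H66.FM

open MvPowerSeries Pool.Agent.W574.SM Pool.Agent.TH192.DT

theorem exists_S (d s N x y : ℕ) (hds : d ≤ s) (hs : s = d ∨ s + 2 ≤ N) (hdN : d ≤ N)
    (hx : d ≤ x) (hy : d ≤ y) : ∃ S ⊆ Finset.range N, Finset.range d ⊆ S ∧ S.card = s ∧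
      x ∉ S ∧ y ∉ S := by
  classical
  rcases hs with hs | hs
  · refine ⟨Finset.range d, Finset.range_subset_range.2 hdN, Finset.Subset.refl _,
      by rw [Finset.card_range, hs], ?_, ?_⟩ <;> rw [Finset.mem_range] <;> omega
  · have h1 : Finset.range d ⊆ Finset.range N \ {x, y} := by
      intro a ha
      rw [Finset.mem_range] at ha
      rw [Finset.mem_sdiff, Finset.mem_range, Finset.mem_insert, Finset.mem_singleton]
      omega
    have h2 : s ≤ (Finset.range N \ {x, y}).card := by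
      have h3 := Finset.le_card_sdiff ({x, y} : Finset ℕ) (Finset.range N)
      have h4 : ({x, y} : Finset ℕ).card ≤ 2 := Finset.card_le_two
      rw [Finset.card_range] at h3
      omega
    obtain ⟨S, hS1, hS2, hS3⟩ := Finset.exists_subsuperset_card_eq h1
      (by rw [Finset.card_range]; exact hds) h2
    refine ⟨S, fun a ha => (Finset.mem_sdiff.1 (hS2 ha)).1, hS1, hS3, ?_, ?_⟩ <;>
    · intro h5
      have h6 := (Finset.mem_sdiff.1 (hS2 h5)).2
      simp at h6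

variable {m n : ℕ} {d h : ℕ} {hdm : d ≤ m} {hdn : d ≤ n} {lam : ℂ} {z : Fin m × Fin n} {q : ℕ}

theorem card_T (r : Fin q → Fin m) (hr : Function.Injective r)
    (hd : ∀ a : Fin d, ∃ p, r p = Fin.castLE hdm a) (hh : ∀ p, (r p : ℕ) < h) :
    (Finset.univ.filter fun i => d ≤ (r i : ℕ) ∧ (r i : ℕ) < h).card = q - d := by
  classical
  have h1 : (Finset.univ.filter fun i => ¬ (d ≤ (r i : ℕ) ∧ (r i : ℕ) < h)).card = d := by
    have h2 : (Finset.univ.filter fun i => ¬ (d ≤ (r i : ℕ) ∧ (r i : ℕ) < h)).image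
        (fun i => (r i : ℕ)) = Finset.range d := by
      ext a
      rw [Finset.mem_image, Finset.mem_range]
      constructor
      · rintro ⟨p, hp, rfl⟩
        have h3 := (Finset.mem_filter.1 hp).2
        have h4 := hh p
        omega
      · intro ha
        obtain ⟨p, hp⟩ := hd ⟨a, ha⟩
        refine ⟨p, Finset.mem_filter.2 ⟨Finset.mem_univ _, ?_⟩, ?_⟩
        · rw [hp]
          simp
          omega
        · rw [hp]
          rfl
    have h3 := Finset.card_image_of_injOn (s := Finset.univ.filter fun i =>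
      ¬ (d ≤ (r i : ℕ) ∧ (r i : ℕ) < h)) (f := fun i => (r i : ℕ))
      (fun i _ j _ hij => hr (Fin.ext hij))
    rw [h2, Finset.card_range] at h3
    exact h3.symm
  have h2 := Finset.card_filter_add_card_filter_not (s := (Finset.univ : Finset (Fin q)))
    (fun i => d ≤ (r i : ℕ) ∧ (r i : ℕ) < h)
  rw [Finset.card_univ, Fintype.card_fin] at h2
  omega

section

variable {s : ℕ} (S : Finset ℕ) (hS : S.card = s)

/-- the rows `i` and `S` -/
def rw' (hSm : ∀ a ∈ S, a < m) (i : Fin m) : Fin (s + 1) → Fin m :=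
  Fin.cons i fun a => ⟨S.orderEmbOfFin hS a, hSm _ (Finset.orderEmbOfFin_mem S hS a)⟩

theorem rw'_inj (hSm : ∀ a ∈ S, a < m) (i : Fin m) (hi : (i : ℕ) ∉ S) :
    Function.Injective (rw' S hS hSm i) := by
  rw [rw', Fin.cons_injective_iff]
  constructor
  · rintro ⟨a, ha⟩
    apply hi
    rw [← ha]
    exact Finset.orderEmbOfFin_mem S hS a
  · intro a b hab
    rw [Fin.mk.injEq] at hab
    exact (S.orderEmbOfFin hS).injective hab

theorem rw'_hit (hSm : ∀ a ∈ S, a < m) (i : Fin m) (hSd : Finset.range d ⊆ S) (a : Fin d) :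
    ∃ p, rw' S hS hSm i p = Fin.castLE hdm a := by
  have h1 : (a : ℕ) ∈ S := hSd (Finset.mem_range.2 a.2)
  have h2 : (a : ℕ) ∈ Set.range (S.orderEmbOfFin hS) := by
    rw [Finset.range_orderEmbOfFin]
    exact h1
  obtain ⟨b, hb⟩ := h2
  refine ⟨b.succ, ?_⟩
  rw [rw', Fin.cons_succ]
  exact Fin.ext hb

theorem rw'_lt (hSm : ∀ a ∈ S, a < m) (i : Fin m) {N : ℕ} (hSN : ∀ a ∈ S, a < N)
    (hi : (i : ℕ) < N) (p : Fin (s + 1)) : (rw' S hS hSm i p : ℕ) < N := by
  refine Fin.cases ?_ (fun a => ?_) p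
  · exact hi
  · exact hSN _ (Finset.orderEmbOfFin_mem S hS a)

theorem rw'_off (hSm : ∀ a ∈ S, a < m) (hSn : ∀ a ∈ S, a < n) (i : Fin m) (k : Fin n)
    (hi : (i : ℕ) ∉ S) (hk : (k : ℕ) ∉ S) (p p' : Fin (s + 1)) (hp : p ≠ p') :
    (rw' S hS hSm i p : ℕ) ≠ rw' S hS hSn k p' := by
  revert hp
  refine Fin.cases ?_ (fun a => ?_) p <;> refine Fin.cases ?_ (fun b => ?_) p'
  · intro h0; exact absurd rfl h0
  · intro _ h1
    apply hi
    change (i : ℕ) = S.orderEmbOfFin hS b at h1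
    rw [h1]
    exact Finset.orderEmbOfFin_mem S hS b
  · intro _ h1
    apply hk
    change (S.orderEmbOfFin hS a : ℕ) = k at h1
    rw [← h1]
    exact Finset.orderEmbOfFin_mem S hS a
  · intro hab h1
    apply hab
    change (S.orderEmbOfFin hS a : ℕ) = S.orderEmbOfFin hS b at h1
    rw [(S.orderEmbOfFin hS).injective h1]

/-- the jets of the special minors -/
theorem jet_special (l : Fin m × Fin n) (hSm : ∀ a ∈ S, a < m) (hSn : ∀ a ∈ S, a < n)
    (i : Fin m) (k : Fin n) (hi : (i : ℕ) ∉ S) (hk : (k : ℕ) ∉ S) :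
    jet l (Matrix.of fun p p' => psi d h lam z 1 (rw' S hS hSm i p)
      (rw' S hS hSn k p')).det = jet l (psi d h lam z 1 i k) *
        ∏ a : Fin s, jet l (psi d h lam z 1
          (⟨S.orderEmbOfFin hS a, hSm _ (Finset.orderEmbOfFin_mem S hS a)⟩ : Fin m)
          (⟨S.orderEmbOfFin hS a, hSn _ (Finset.orderEmbOfFin_mem S hS a)⟩ : Fin n)) := by
  rw [jet_det l _ _ (rw'_off S hS hSm hSn i k hi hk), Fin.prod_univ_succ]
  rfl

end

open Classical in
theorem jet_psi_E (l t : Fin m × Fin n) (ht : IsE d h t) : jet l (psi d h lam z 1 t.1 t.2)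
    = TrivSqZeroExt.inl (if (t.1 : ℕ) = t.2 then 1 else 0) +
      TrivSqZeroExt.inr (if l = t ∧ t ≠ z then 1 else 0) := by
  rw [psi, if_pos ⟨ht.1, ht.2.1⟩, if_pos ht.2.2, one_mul, jet_yy]

/-- **The exceptional coordinates are given by the minors.** -/
theorem gives {ι : Type} (f : ι → MvPolynomial (Fin m × Fin n) ℂ)
    (hf : ∀ (r : Fin q → Fin m) (c : Fin q → Fin n), Function.Injective r →
      (∀ a : Fin d, ∃ p, r p = Fin.castLE hdm a) → (∀ p, (r p : ℕ) < h) →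
      ((genericMatrix m n).submatrix r c).det ∈ Submodule.span ℂ (Set.range f))
    (hlam : lam ≠ 0) (hhm : h ≤ m) (hz1 : (z.1 : ℕ) = d) (hz2 : (z.2 : ℕ) = d) (hdh : d < h)
    (hq : d < q) (hq2 : q = d + 1 ∨ (q < h ∧ q < n)) (t : Fin m × Fin n) (ht : t ≠ z)
    (hE : IsE d h t) : Gives z (xi d h hdm hdn lam z) (q - d) f t := by
  classical
  have hdn' : d < n := by rw [← hz2]; exact z.2.2
  obtain ⟨s, rfl⟩ : ∃ s, q = s + 1 := ⟨q - 1, by omega⟩
  have hs : s = d ∨ s + 2 ≤ min h n := by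
    rcases hq2 with h1 | h1
    · left; omega
    · right
      rw [le_min_iff]
      omega
  have hdN : d ≤ min h n := le_min hdh.le hdn
  -- the value of a special minor
  have hval : ∀ (S : Finset ℕ) (hS : S.card = s) (hSm : ∀ a ∈ S, a < m) (hSn : ∀ a ∈ S, a < n)
      (hSh : ∀ a ∈ S, a < h) (hSd : Finset.range d ⊆ S) (i : Fin m) (k : Fin n)
      (hi : (i : ℕ) ∉ S) (hih : (i : ℕ) < h),
      MvPolynomial.aeval (xi d h hdm hdn lam z) ((genericMatrix m n).submatrix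
        (rw' S hS hSm i) (rw' S hS hSn k)).det = X z ^ (s + 1 - d) *
        (Matrix.of fun p p' => psi d h lam z 1 (rw' S hS hSm i p) (rw' S hS hSn k p')).det := by
    intro S hS hSm hSn hSh hSd i k hi hih
    have hhit : ∀ a : Fin d, ∃ p, rw' S hS hSm i p = Fin.castLE hdm a :=
      rw'_hit S hS hSm i hSd
    choose p hp using hhit
    rw [aeval_sub, det_rows _ _ (rw'_inj S hS hSm i hi) p hp, card_T _ (rw'_inj S hS hSm i hi)
      (fun a => ⟨p a, hp a⟩) (fun b => rw'_lt S hS hSm i hSh hih b)]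
  by_cases h1 : (t.1 : ℕ) = t.2
  · have h2 : (t.1 : ℕ) ≠ d := by
      intro h3
      apply ht
      refine Prod.ext (Fin.ext ?_) (Fin.ext ?_)
      · rw [hz1, h3]
      · rw [hz2, ← h1, h3]
    obtain ⟨S, hS1, hS2, hS3, hS4, hS5⟩ := exists_S d s (min h n) t.1 d (by omega) hs hdN hE.1
      le_rfl
    have hSh : ∀ a ∈ S, a < h := fun a ha =>
      lt_of_lt_of_le (Finset.mem_range.1 (hS1 ha)) (min_le_left _ _)
    have hSn : ∀ a ∈ S, a < n := fun a ha =>
      lt_of_lt_of_le (Finset.mem_range.1 (hS1 ha)) (min_le_right _ _)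
    have hSm : ∀ a ∈ S, a < m := fun a ha => lt_of_lt_of_le (hSh a ha) hhm
    have hi2 : (t.2 : ℕ) ∉ S := by rw [← h1]; exact hS4
    have hz1' : (z.1 : ℕ) ∉ S := by rw [hz1]; exact hS5
    have hz2' : (z.2 : ℕ) ∉ S := by rw [hz2]; exact hS5
    refine ⟨((genericMatrix m n).submatrix (rw' S hS3 hSm t.1) (rw' S hS3 hSn t.2)).det -
      ((genericMatrix m n).submatrix (rw' S hS3 hSm z.1) (rw' S hS3 hSn z.2)).det,
      Submodule.sub_mem _ (hf _ _ (rw'_inj S hS3 hSm t.1 hS4) (rw'_hit S hS3 hSm t.1 hS2)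
        (rw'_lt S hS3 hSm t.1 hSh hE.2.1))
        (hf _ _ (rw'_inj S hS3 hSm z.1 hz1') (rw'_hit S hS3 hSm z.1 hS2)
        (rw'_lt S hS3 hSm z.1 hSh (by rw [hz1]; exact hdh))), _, ?_, by
        rw [map_sub, hval S hS3 hSm hSn hSh hS2 t.1 t.2 hS4 hE.2.1,
          hval S hS3 hSm hSn hSh hS2 z.1 z.2 hz1' (by rw [hz1]; exact hdh), ← mul_sub]⟩
    refine isCoord_of_jet _ _ _ _ (prod_k0 (d := d) (h := h) hlam
      (fun a : Fin s => (⟨S.orderEmbOfFin hS3 a, hSm _ (Finset.orderEmbOfFin_mem S hS3 a)⟩ : Fin m))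
      (fun a : Fin s => (⟨S.orderEmbOfFin hS3 a, hSn _ (Finset.orderEmbOfFin_mem S hS3 a)⟩ : Fin n))
      (fun a => rfl)) ?_ ht
    intro l hl
    have hzE : IsE d h z := ⟨hz1.ge, by omega, hz2.ge⟩
    obtain ⟨e, he⟩ := prod_jet (d := d) (h := h) (lam := lam) (z := z) l
      (fun a : Fin s => (⟨S.orderEmbOfFin hS3 a, hSm _ (Finset.orderEmbOfFin_mem S hS3 a)⟩ : Fin m))
      (fun a : Fin s => (⟨S.orderEmbOfFin hS3 a, hSn _ (Finset.orderEmbOfFin_mem S hS3 a)⟩ : Fin n))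
    rw [map_sub, jet_special S hS3 l hSm hSn t.1 t.2 hS4 hi2,
      jet_special S hS3 l hSm hSn z.1 z.2 hz1' hz2', ← sub_mul, jet_psi_E l t hE,
      jet_psi_E l z hzE, if_pos h1, if_pos (hz1.trans hz2.symm), if_neg (fun h3 => h3.2 rfl :
        ¬ (l = z ∧ z ≠ z)), TrivSqZeroExt.inr_zero, add_zero, add_sub_cancel_left, he,
      inr_mul_add]
    congr 1
    by_cases h3 : l = t
    · rw [if_pos ⟨h3, ht⟩, if_pos h3, one_mul]
    · rw [if_neg fun h4 => h3 h4.1, if_neg h3, zero_mul]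
  · obtain ⟨S, hS1, hS2, hS3, hS4, hS5⟩ := exists_S d s (min h n) t.1 t.2 (by omega) hs hdN hE.1
      hE.2.2
    have hSh : ∀ a ∈ S, a < h := fun a ha =>
      lt_of_lt_of_le (Finset.mem_range.1 (hS1 ha)) (min_le_left _ _)
    have hSn : ∀ a ∈ S, a < n := fun a ha =>
      lt_of_lt_of_le (Finset.mem_range.1 (hS1 ha)) (min_le_right _ _)
    have hSm : ∀ a ∈ S, a < m := fun a ha => lt_of_lt_of_le (hSh a ha) hhm
    refine ⟨((genericMatrix m n).submatrix (rw' S hS3 hSm t.1) (rw' S hS3 hSn t.2)).det,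
      hf _ _ (rw'_inj S hS3 hSm t.1 hS4) (rw'_hit S hS3 hSm t.1 hS2)
        (rw'_lt S hS3 hSm t.1 hSh hE.2.1), _, ?_,
        hval S hS3 hSm hSn hSh hS2 t.1 t.2 hS4 hE.2.1⟩
    refine isCoord_of_jet _ _ _ _ (prod_k0 (d := d) (h := h) hlam
      (fun a : Fin s => (⟨S.orderEmbOfFin hS3 a, hSm _ (Finset.orderEmbOfFin_mem S hS3 a)⟩ : Fin m))
      (fun a : Fin s => (⟨S.orderEmbOfFin hS3 a, hSn _ (Finset.orderEmbOfFin_mem S hS3 a)⟩ : Fin n))
      (fun a => rfl)) ?_ ht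
    intro l hl
    obtain ⟨e, he⟩ := prod_jet (d := d) (h := h) (lam := lam) (z := z) l
      (fun a : Fin s => (⟨S.orderEmbOfFin hS3 a, hSm _ (Finset.orderEmbOfFin_mem S hS3 a)⟩ : Fin m))
      (fun a : Fin s => (⟨S.orderEmbOfFin hS3 a, hSn _ (Finset.orderEmbOfFin_mem S hS3 a)⟩ : Fin n))
    rw [jet_special S hS3 l hSm hSn t.1 t.2 hS4 hS5, jet_psi_E l t hE, if_neg h1,
      TrivSqZeroExt.inl_zero, zero_add, he, inr_mul_add]
    congr 1
    by_cases h3 : l = t
    · rw [if_pos ⟨h3, ht⟩, if_pos h3, one_mul]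
    · rw [if_neg fun h4 => h3 h4.1, if_neg h3, zero_mul]

end Pool.Agent.J6H66.FM
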