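import Pool.Agent.J6H66.FM.Chart

set_option autoImplicit false
set_option linter.unusedSectionVars false
set_option linter.unusedVariables false

/-! # Flags of determinantal ideals: the Jacobian determinant and the coordinates -/

namespace Pool.Agent.J6H66.FM

open MvPowerSeries Pool.Agent.W574.SM Pool.Agent.TH192.DT

variable {m n : ℕ}

/-- the exceptional coordinates -/
def IsE (d h : ℕ) (t : Fin m × Fin n) : Prop := d ≤ (t.1 : ℕ) ∧ (t.1 : ℕ) < h ∧ d ≤ (t.2 : ℕ)

variable {d h : ℕ} {hdm : d ≤ m} {hdn : d ≤ n} {lam : ℂ} {z : Fin m × Fin n} {q : ℕ}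

theorem inr_mul_add (x a b : ℂ) : (TrivSqZeroExt.inr x : DualNumber ℂ) *
    (TrivSqZeroExt.inl a + TrivSqZeroExt.inr b) = TrivSqZeroExt.inr (x * a) := by
  ext <;> simp [mul_comm]

theorem jet_fr (l : Fin m × Fin n) (i : Fin m) (k : Fin n) : jet l (fr lam i k)
    = TrivSqZeroExt.inl (if (i : ℕ) = k then lam else 0) +
      TrivSqZeroExt.inr (by classical exact if l = (i, k) then 1 else 0) := by
  rw [fr, map_add, jet_C, jet_X]

open Classical in
theorem jet_sum (l : Fin m × Fin n) (i : Fin m × Fin n) :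
    jet l (∑ a : Fin d, X (i.1, Fin.castLE hdn a) * fr lam (Fin.castLE hdm a) i.2)
      = TrivSqZeroExt.inr (if l = i ∧ (i.2 : ℕ) < d then lam else 0) := by
  rw [map_sum]
  have h1 : ∀ a : Fin d, jet l (X (i.1, Fin.castLE hdn a) * fr lam (Fin.castLE hdm a) i.2)
      = TrivSqZeroExt.inr (if l = (i.1, Fin.castLE hdn a) ∧ (a : ℕ) = i.2 then lam else 0) := by
    intro a
    rw [map_mul, jet_X, jet_fr, inr_mul_add]
    congr 1
    by_cases h2 : l = (i.1, Fin.castLE hdn a) <;> by_cases h3 : (a : ℕ) = i.2 <;>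
      simp [h2, h3]
  simp only [h1]
  by_cases h2 : (i.2 : ℕ) < d
  · rw [Finset.sum_eq_single (⟨i.2, h2⟩ : Fin d)]
    · congr 1
      have h3 : (i.1, Fin.castLE hdn (⟨i.2, h2⟩ : Fin d)) = i := Prod.ext rfl (Fin.ext rfl)
      rw [h3]
      simp [h2]
    · intro a _ ha
      rw [if_neg, TrivSqZeroExt.inr_zero]
      rintro ⟨_, h3⟩
      exact ha (Fin.ext h3)
    · intro h0; exact absurd (Finset.mem_univ _) h0
  · rw [if_neg fun h3 => h2 h3.2, TrivSqZeroExt.inr_zero]
    refine Finset.sum_eq_zero fun a _ => ?_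
    rw [if_neg, TrivSqZeroExt.inr_zero]
    rintro ⟨_, h3⟩
    exact h2 (by rw [← h3]; exact a.2)

open Classical in
theorem jet_yy (l : Fin m × Fin n) (t : Fin m × Fin n) : jet l (yy z t.1 t.2)
    = TrivSqZeroExt.inl (if (t.1 : ℕ) = t.2 then 1 else 0) +
      TrivSqZeroExt.inr (if l = t ∧ t ≠ z then 1 else 0) := by
  rw [yy, map_add, jet_C]
  congr 1
  by_cases h1 : t = z
  · rw [if_pos h1, map_zero, if_neg fun h2 => h2.2 h1, TrivSqZeroExt.inr_zero]
  · rw [if_neg h1, jet_X]
    congr 1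
    by_cases h2 : l = t
    · rw [if_pos h2, if_pos ⟨h2, h1⟩]
    · rw [if_neg h2, if_neg fun h3 => h2 h3.1]

open Classical in
theorem jet_xi (l i : Fin m × Fin n) : jet l (xi d h hdm hdn lam z i)
    = if d ≤ (i.1 : ℕ) ∧ (i.1 : ℕ) < h then
        (if d ≤ (i.2 : ℕ) then
          TrivSqZeroExt.inr (if l = z ∧ (i.1 : ℕ) = i.2 then 1 else 0)
          else TrivSqZeroExt.inr (if l = i then lam else 0))
        else TrivSqZeroExt.inl (if (i.1 : ℕ) = i.2 then lam else 0) +
          TrivSqZeroExt.inr (if l = i then 1 else 0) := by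
  rw [xi, map_add, psi]
  by_cases h1 : d ≤ (i.1 : ℕ) ∧ (i.1 : ℕ) < h
  · rw [if_pos h1, if_pos h1, if_pos h1, jet_sum]
    by_cases h2 : d ≤ (i.2 : ℕ)
    · rw [if_pos h2, if_pos h2, if_neg fun h3 => absurd h3.2 (not_lt.2 h2),
        TrivSqZeroExt.inr_zero, zero_add, map_mul, jet_X, jet_yy, inr_mul_add]
      congr 1
      by_cases h3 : l = z <;> by_cases h4 : (i.1 : ℕ) = i.2 <;> simp [h3, h4]
    · rw [if_neg h2, if_neg h2, map_zero, add_zero]
      congr 1
      by_cases h3 : l = i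
      · rw [if_pos h3, if_pos ⟨h3, not_le.1 h2⟩]
      · rw [if_neg h3, if_neg fun h4 => h3 h4.1]
  · rw [if_neg h1, if_neg h1, if_neg h1, map_zero, zero_add, jet_fr]

theorem cc_xi (i : Fin m × Fin n) : constantCoeff (xi d h hdm hdn lam z i)
    = lam * if (i.1 : ℕ) = i.2 ∧ ¬ (d ≤ (i.1 : ℕ) ∧ (i.1 : ℕ) < h) then 1 else 0 := by
  classical
  rw [← jet_fst i, jet_xi]
  by_cases h1 : d ≤ (i.1 : ℕ) ∧ (i.1 : ℕ) < h
  · have h3 : ¬ ((i.1 : ℕ) = i.2 ∧ ¬ (d ≤ (i.1 : ℕ) ∧ (i.1 : ℕ) < h)) := fun h2 => h2.2 h1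
    rw [if_pos h1, if_neg h3, mul_zero]
    split_ifs <;> rfl
  · rw [if_neg h1]
    by_cases h2 : (i.1 : ℕ) = i.2
    · have h3 : (i.1 : ℕ) = i.2 ∧ ¬ (d ≤ (i.1 : ℕ) ∧ (i.1 : ℕ) < h) := ⟨h2, h1⟩
      rw [if_pos h2, if_pos h3, TrivSqZeroExt.fst_add, TrivSqZeroExt.fst_inl,
        TrivSqZeroExt.fst_inr, add_zero, mul_one]
    · have h3 : ¬ ((i.1 : ℕ) = i.2 ∧ ¬ (d ≤ (i.1 : ℕ) ∧ (i.1 : ℕ) < h)) := fun h3 => h2 h3.1
      rw [if_neg h2, if_neg h3, TrivSqZeroExt.fst_add, TrivSqZeroExt.fst_inl,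
        TrivSqZeroExt.fst_inr, add_zero, mul_zero]

/-- the coordinates which are not exceptional -/
theorem coord_nonexc (hlam : lam ≠ 0) (t : Fin m × Fin n) (ht : ¬ IsE d h t) (htz : t ≠ z) :
    ∃ q : MvPolynomial (Fin m × Fin n) ℂ,
      IsCoord z t (MvPolynomial.aeval (xi d h hdm hdn lam z) q) := by
  classical
  by_cases h1 : d ≤ (t.1 : ℕ) ∧ (t.1 : ℕ) < h
  · have h2 : ¬ d ≤ (t.2 : ℕ) := fun h2 => ht ⟨h1.1, h1.2, h2⟩
    refine ⟨MvPolynomial.X t, ?_⟩
    rw [MvPolynomial.aeval_X]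
    refine isCoord_of_jet _ _ _ lam hlam ?_ htz
    intro l hl
    rw [jet_xi, if_pos h1, if_neg h2]
    congr
  · refine ⟨MvPolynomial.X t - MvPolynomial.C (if (t.1 : ℕ) = t.2 then lam else 0), ?_⟩
    rw [map_sub, MvPolynomial.aeval_X, MvPolynomial.aeval_C]
    have h5 : ∀ c0 : ℂ, algebraMap ℂ (MvPowerSeries (Fin m × Fin n) ℂ) c0
      = MvPowerSeries.C c0 := fun _ => rfl
    rw [h5]
    refine isCoord_of_jet _ _ _ 1 one_ne_zero ?_ htz
    intro l hl
    rw [map_sub, jet_xi, if_neg h1, jet_C]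
    simp

/-! ### The Jacobian determinant -/

theorem pderiv_exc (t : Fin m × Fin n) (ht : IsE d h t) (htz : t ≠ z) (i : Fin m × Fin n) :
    pderiv ℂ t (xi d h hdm hdn lam z i)
      = X z * (by classical exact if i = t then 1 else 0) := by
  classical
  have hX : ∀ s : Fin m × Fin n, t ≠ s →
      pderiv ℂ t (X s : MvPowerSeries (Fin m × Fin n) ℂ) = 0 :=
    fun s hs => pderiv_X_of_ne (Ne.symm hs)
  have h0 : pderiv ℂ t (if d ≤ (i.1 : ℕ) ∧ (i.1 : ℕ) < h then
      ∑ a : Fin d, X (i.1, Fin.castLE hdn a) * fr lam (Fin.castLE hdm a) i.2 else 0) = 0 := by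
    split_ifs
    · rw [map_sum]
      refine Finset.sum_eq_zero fun a _ => ?_
      rw [Derivation.leibniz, hX, smul_zero, add_zero, fr, map_add, pderiv_C, zero_add, hX,
        smul_zero]
      · intro h1
        have h2 := ht.1
        rw [h1] at h2
        have := a.2
        simp at h2
        omega
      · intro h1
        have h2 := ht.2.2
        rw [h1] at h2
        have := a.2
        simp at h2
        omega
    · exact map_zero _
  rw [xi, map_add, h0, zero_add, psi]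
  by_cases h1 : d ≤ (i.1 : ℕ) ∧ (i.1 : ℕ) < h
  · rw [if_pos h1]
    by_cases h2 : d ≤ (i.2 : ℕ)
    · rw [if_pos h2, Derivation.leibniz, hX z htz, smul_zero, add_zero, smul_eq_mul, yy, map_add,
        pderiv_C, zero_add]
      congr 1
      by_cases h3 : i = t
      · rw [if_pos h3, if_neg (by rw [h3]; exact htz), h3, pderiv_X_self]
      · rw [if_neg h3]
        split_ifs
        · exact map_zero _
        · exact hX _ (Ne.symm h3)
    · rw [if_neg h2, map_zero, if_neg, mul_zero]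
      rintro rfl
      exact h2 ht.2.2
  · rw [if_neg h1, fr, map_add, pderiv_C, zero_add]
    have h2 : i ≠ t := by
      rintro rfl
      exact h1 ⟨ht.1, ht.2.1⟩
    rw [if_neg h2, mul_zero]
    exact hX _ (Ne.symm h2)

theorem card_E (hhm : h ≤ m) : Nat.card {t : Fin m × Fin n // IsE d h t} = (h - d) * (n - d) := by
  classical
  have h1 : Nat.card {t : Fin m × Fin n // IsE d h t}
      = Nat.card (Fin (h - d) × Fin (n - d)) := by
    symm
    refine Nat.card_eq_of_bijective (fun q => ⟨(⟨d + q.1, by have := q.1.2; omega⟩,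
      ⟨d + q.2, by have := q.2.2; omega⟩), ⟨by simp, ?_, by simp⟩⟩) ⟨?_, ?_⟩
    · have := q.1.2
      change d + (q.1 : ℕ) < h
      omega
    · rintro ⟨a, b⟩ ⟨a', b'⟩ hab
      have e1 : d + (a : ℕ) = d + a' :=
        congrArg (fun x : {t : Fin m × Fin n // IsE d h t} => (x.1.1 : ℕ)) hab
      have e2 : d + (b : ℕ) = d + b' :=
        congrArg (fun x : {t : Fin m × Fin n // IsE d h t} => (x.1.2 : ℕ)) hab
      refine Prod.ext (Fin.ext ?_) (Fin.ext ?_)
      · change (a : ℕ) = a'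
        omega
      · change (b : ℕ) = b'
        omega
    · rintro ⟨⟨a, b⟩, h1, h2, h3⟩
      refine ⟨(⟨a - d, by simp at h1 h2; omega⟩, ⟨b - d, by have := b.2; simp at h3; omega⟩), ?_⟩
      refine Subtype.ext (Prod.ext (Fin.ext ?_) (Fin.ext ?_))
      · change d + ((a : ℕ) - d) = a
        change d ≤ (a : ℕ) at h1
        omega
      · change d + ((b : ℕ) - d) = b
        change d ≤ (b : ℕ) at h3
        omega
  rw [h1, Nat.card_prod, Nat.card_eq_fintype_card, Nat.card_eq_fintype_card, Fintype.card_fin,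
    Fintype.card_fin]

theorem jac (hlam : lam ≠ 0) (hhm : h ≤ m) (hz1 : (z.1 : ℕ) = d) (hz2 : (z.2 : ℕ) = d)
    (hdh : d < h) :
    ∃ U : MvPowerSeries (Fin m × Fin n) ℂ, constantCoeff U ≠ 0 ∧
      (Matrix.of fun t i => pderiv ℂ t (xi d h hdm hdn lam z i)).det
        = X z ^ ((h - d) * (n - d) - 1) * U := by
  classical
  set M' : Matrix (Fin m × Fin n) (Fin m × Fin n) (MvPowerSeries (Fin m × Fin n) ℂ) :=
    Matrix.of fun t i => if IsE d h t ∧ t ≠ z then (if i = t then 1 else 0) else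
      pderiv ℂ t (xi d h hdm hdn lam z i) with hM'
  have hzE : IsE d h z := ⟨hz1.ge, by omega, hz2.ge⟩
  refine ⟨M'.det, ?_, ?_⟩
  · rw [RingHom.map_det, det_of_rank _ (fun t => if t = z then 0 else 1)]
    · refine Finset.prod_ne_zero_iff.2 fun t _ => ?_
      rw [RingHom.mapMatrix_apply, Matrix.map_apply, hM', Matrix.of_apply]
      by_cases h1 : IsE d h t ∧ t ≠ z
      · rw [if_pos h1, if_pos rfl, map_one]
        exact one_ne_zero
      · rw [if_neg h1]
        have h2 : constantCoeff (pderiv ℂ t (xi d h hdm hdn lam z t))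
            = (jet t (xi d h hdm hdn lam z t)).snd := by
          rw [jet_apply]
          simp
        rw [h2, jet_xi]
        by_cases h3 : d ≤ (t.1 : ℕ) ∧ (t.1 : ℕ) < h
        · rw [if_pos h3]
          by_cases h4 : d ≤ (t.2 : ℕ)
          · have h5 : t = z := by
              by_contra h6
              exact h1 ⟨⟨h3.1, h3.2, h4⟩, h6⟩
            rw [if_pos h4, if_pos ⟨h5, by rw [h5, hz1, hz2]⟩]
            simp
          · rw [if_neg h4, if_pos rfl]
            simpa using hlam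
        · rw [if_neg h3, if_pos rfl]
          simp
    · intro t i hti hb
      rw [RingHom.mapMatrix_apply, Matrix.map_apply, hM', Matrix.of_apply]
      have htz : t ≠ z := by
        rintro rfl
        rw [if_pos rfl, if_neg (Ne.symm hti)] at hb
        omega
      by_cases h1 : IsE d h t
      · rw [if_pos ⟨h1, htz⟩, if_neg (Ne.symm hti), map_zero]
      · rw [if_neg fun h2 => h1 h2.1]
        have h2 : constantCoeff (pderiv ℂ t (xi d h hdm hdn lam z i))
            = (jet t (xi d h hdm hdn lam z i)).snd := by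
          rw [jet_apply]
          simp
        rw [h2, jet_xi]
        split_ifs <;> simp_all
  · have h1 : (Matrix.of fun t i => pderiv ℂ t (xi d h hdm hdn lam z i))
        = (Matrix.diagonal fun t => if IsE d h t ∧ t ≠ z then X z else 1) * M' := by
      ext1 t i
      rw [Matrix.diagonal_mul, hM', Matrix.of_apply, Matrix.of_apply]
      by_cases h2 : IsE d h t ∧ t ≠ z
      · rw [if_pos h2, if_pos h2, pderiv_exc t h2.1 h2.2]
      · rw [if_neg h2, if_neg h2, one_mul]
    rw [h1, Matrix.det_mul, Matrix.det_diagonal, Finset.prod_ite, Finset.prod_const_one, mul_one,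
      Finset.prod_const]
    congr 2
    have h2 : (Finset.univ.filter fun t : Fin m × Fin n => IsE d h t ∧ t ≠ z)
        = (Finset.univ.filter fun t => IsE d h t).erase z := by
      ext t
      simp only [Finset.mem_filter, Finset.mem_erase, Finset.mem_univ, true_and]
      exact and_comm
    rw [h2, Finset.card_erase_of_mem (Finset.mem_filter.2 ⟨Finset.mem_univ _, hzE⟩),
      ← Fintype.card_subtype, ← Nat.card_eq_fintype_card, card_E hhm]

end Pool.Agent.J6H66.FM
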