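import Pool.Agent.J6H7.BD.Sys

set_option autoImplicit false
set_option linter.unusedSectionVars false
set_option linter.unusedVariables false

/-! # Families of ideals with known Rees divisors, all of which occur, and forms over their products -/

namespace Pool.Agent.J6H66.FM

open MvPolynomial Pool.Agent.W574.SM Pool.Agent.W574.LM Pool.Agent.H628R4.TP
  Pool.Agent.W574.HS Pool.Agent.TH192.DT Pool.Agent.R852.MX Pool.Agent.J6H7.BD

section

variable {σ : Type} [Fintype σ] [DecidableEq σ] {T : ℕ} {κ : Fin T → Type}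
  [∀ t, Fintype (κ t)] [∀ t, DecidableEq (κ t)]

/-- The divisors of index `i ∈ D`, with the numbers `ν i` and the orders `μ i t` of the ideals with
the generators `f t j`, give roots of the Bernstein-Sato polynomials of all products of these
ideals in which all ideals occur. -/
structure FSys (f : (t : Fin T) → κ t → MvPolynomial σ ℂ) {D : Type} (ν : D → ℕ)
    (μ : D → Fin T → ℕ) : Prop where
  ne : ∀ t, ∃ j, f t j ≠ 0
  pos : ∀ i, 0 < ν i
  roots : ∀ {τ : Type} [Fintype τ] [DecidableEq τ] (π : τ → Fin T), Function.Surjective π →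
    ∀ (b : Polynomial ℂ) (H : MvPolynomial σ ℂ), constantCoeff H ≠ 0 →
    IsLocEq H (prodFam fun x => f (π x)) b → ∀ (i : D) (l : ℕ), l < ∑ x, μ i (π x) →
      b.eval (-((ν i : ℂ) + l) / (∑ x, μ i (π x) : ℕ)) = 0

variable {f : (t : Fin T) → κ t → MvPolynomial σ ℂ} {D : Type} {ν : D → ℕ}
  {μ : D → Fin T → ℕ} (hs : FSys f ν μ) {B : ℕ} (β : Fin T → Fin B) (a : Fin B → ℕ)
  (ha : ∀ t, 0 < a (β t))

include hs

theorem blkF_ne (b : Fin B) : ∃ j, blkF f β b j ≠ 0 := by
  choose j hj using fun t : {t // β t = b} => hs.ne t.1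
  refine ⟨j, ?_⟩
  change ∏ t : {t // β t = b}, f t.1 (j t) ≠ 0
  exact Finset.prod_ne_zero_iff.2 fun t _ => hj t

theorem nuX_pos (i : D ⊕ Fin B) : 0 < nuX ν B i := by
  rcases i with i | c
  · exact hs.pos i
  · exact one_pos

include ha

theorem rootsX (b : Polynomial ℂ) (hb : PowData a (blkF f β) b) (i : D ⊕ Fin B) (l : ℕ)
    (hl : l < mulX μ β a i) : b.eval (-((nuX ν B i : ℂ) + l) / mulX μ β a i) = 0 := by
  classical
  rcases i with i | c
  · change l < ∑ t, a (β t) * μ i t at hl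
    obtain ⟨t0, _, ht0⟩ := Finset.exists_ne_zero_of_sum_ne_zero
      (by omega : ∑ t, a (β t) * μ i t ≠ 0)
    obtain ⟨H, hH, hHb⟩ := hb.ideal ⟨β t0, left_ne_zero_of_mul ht0⟩
    have h1 : IsLocEq H (prodFam fun x : (Σ q : (Σ b, Fin (a b)), {t // β t = q.1}) =>
        f x.2.1) b := by
      refine locEq_reindex (Equiv.piCurry
        (fun (q : Σ b, Fin (a b)) (t : {t // β t = q.1}) => κ t)) H _ _ ?_ b hHb
      intro J
      exact (Fintype.prod_sigma (fun x : (Σ q : (Σ b, Fin (a b)), {t // β t = q.1}) =>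
        f x.2.1 (J x))).symm
    have h2 := hs.roots (fun x : (Σ q : (Σ b, Fin (a b)), {t // β t = q.1}) => x.2.1)
      (fun t => ⟨⟨⟨β t, ⟨0, ha t⟩⟩, ⟨t, rfl⟩⟩, rfl⟩) b H hH h1
      i l (by rw [sum_blk β a (μ i)]; exact hl)
    rw [sum_blk β a (μ i)] at h2
    exact h2
  · have h3 := hb.strict c l hl
    change b.eval (-(((1 : ℕ) : ℂ) + l) / a c) = 0
    rw [Nat.cast_one]
    exact h3

/-- the roots of the polynomials `b` with a global functional equation -/
theorem rootsX_global (b : Polynomial ℂ) (hb : IsBFunction (powProd a (blkF f β)) b)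
    (i : D ⊕ Fin B) (l : ℕ) (hl : l < mulX μ β a i) :
    b.eval (-((nuX ν B i : ℂ) + l) / mulX μ β a i) = 0 :=
  rootsX hs β a ha b (powData_global a _ (blkF_ne hs β) b hb) i l hl

/-- the roots of the polynomials `b` with a local functional equation -/
theorem rootsX_local (b : Polynomial ℂ) (hb : IsLocalBFunction (powProd a (blkF f β)) b)
    (i : D ⊕ Fin B) (l : ℕ) (hl : l < mulX μ β a i) :
    b.eval (-((nuX ν B i : ℂ) + l) / mulX μ β a i) = 0 :=
  rootsX hs β a ha b (powData_local a _ (blkF_ne hs β) b hb) i l hl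

/-- **The motivic form.** -/
theorem motX [Fintype D] : ∃ P : Finset (ℤ × ℤ), (∀ q ∈ P, q.1 < 0 ∧ 0 < q.2 ∧
      (∀ b : Polynomial ℂ, IsBFunction (powProd a (blkF f β)) b →
        b.eval ((q.1 : ℂ) / q.2) = 0) ∧
      ∀ b : Polynomial ℂ, IsLocalBFunction (powProd a (blkF f β)) b →
        b.eval ((q.1 : ℂ) / q.2) = 0) ∧
    ∀ (R : Type) [CommRing R] (u : Rˣ) (c : Finset {i // 0 < mulX μ β a i} → R),
      dlZ u (nuX ν B) (mulX μ β a) c ∈ ratU u (P : Set (ℤ × ℤ)) :=
  ⟨pairs (nuX ν B) (mulX μ β a), fun q hq => ⟨(pairs_sign _ _ (nuX_pos hs) q hq).1,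
    (pairs_sign _ _ (nuX_pos hs) q hq).2,
    fun b hb => pairs_roots _ _ (nuX_pos hs) b
      (fun i l hl => rootsX_global hs β a ha b hb i l hl) q hq,
    fun b hb => pairs_roots _ _ (nuX_pos hs) b
      (fun i l hl => rootsX_local hs β a ha b hb i l hl) q hq⟩,
    fun _ _ u c => dlZ_mem u _ _ c⟩

/-- **The topological form.** -/
theorem topX [Fintype D] (χ : Finset (D ⊕ Fin B) → ℤ) (s : ℂ)
    (hsp : (topZ (nuX ν B) (mulX μ β a) χ).denom.eval s = 0) :
    (∀ b : Polynomial ℂ, IsBFunction (powProd a (blkF f β)) b → b.eval s = 0) ∧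
      ∀ b : Polynomial ℂ, IsLocalBFunction (powProd a (blkF f β)) b → b.eval s = 0 :=
  ⟨fun b hb => root_of_pole _ _ χ (nuX_pos hs) b
      (fun i l hl => rootsX_global hs β a ha b hb i l hl) s hsp,
    fun b hb => root_of_pole _ _ χ (nuX_pos hs) b
      (fun i l hl => rootsX_local hs β a ha b hb i l hl) s hsp⟩

end

end Pool.Agent.J6H66.FM
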