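import Pool.Agent.J6H66.FM.Flag
import Pool.Agent.J6H66.FM.Sys

set_option autoImplicit false
set_option linter.unusedSectionVars false
set_option linter.unusedVariables false

/-! # Flags of determinantal ideals: the forms over the products -/

namespace Pool.Agent.J6H66.FM

open Pool.Agent.W574.SM Pool.Agent.TH192.DT Pool.Agent.W574.LM Pool.Agent.H628R4.TP
  Pool.Agent.W574.HS Pool.Agent.J6H7.BD

/-- The conditions for the sizes `q t` of the minors of an `m × n` matrix with the blocks of rows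
given by `R`: `1 ≤ q t ≤ n`, the row `q t` lies in one of the blocks, and (completeness) for
every `j ≤ max q` there is a `t` with `q t = j`, or with `j < q t < n` and such that the row `q t` lies
in the block of the row `j` and is not the last one. -/
structure IsFlagType (R : Finset ℕ) (m n : ℕ) {T : ℕ} (q : Fin T → ℕ) : Prop where
  le_m : ∀ r ∈ R, r ≤ m
  pos : ∀ t, 0 < q t
  mem : ∀ t, ∃ r ∈ R, q t ≤ r
  le_n : ∀ t, q t ≤ n
  complete : ∀ j, 0 < j → j ≤ Finset.univ.sup q →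
    ∃ t, q t = j ∨ (j < q t ∧ q t < blockEnd R j ∧ q t < n)

/-- `ν_j = (blockEnd R j - j + 1) (n - j + 1)` for `j = d + 1`: the codimension of the locus of the
matrices, the first `blockEnd R j` rows of which have rank less than `j`. -/
noncomputable def flagNu (R : Finset ℕ) (n : ℕ) (N : ℕ) (d : Fin N) : ℕ :=
  (blockEnd R (d + 1) - d) * (n - d)

/-- The order `max (min (q t) (blockEnd R j) - j + 1, 0)`, `j = d + 1`, of `J_(q t)` along `E_j`. -/
noncomputable def flagOrd (R : Finset ℕ) {T : ℕ} (q : Fin T → ℕ) (N : ℕ) (d : Fin N)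
    (t : Fin T) : ℕ :=
  min (q t) (blockEnd R (d + 1)) - d

variable {R : Finset ℕ} {m n T : ℕ} {q : Fin T → ℕ}

theorem flagMinor_ne (hR : ∀ r ∈ R, r ≤ m) {k : ℕ} (hk0 : 0 < k) (hkR : ∃ r ∈ R, k ≤ r)
    (hkn : k ≤ n) : ∃ J, flagMinor R m n k J ≠ 0 := by
  obtain ⟨r, hr, hkr⟩ := hkR
  have hm := hR r hr
  have h1 := hasOrd (R := R) (m := m) (n := n) (d := 0) (hdm := Nat.zero_le m)
    (hdn := Nat.zero_le n) (lam := 1) (z := (⟨0, by omega⟩, ⟨0, by omega⟩)) one_ne_zero hR
    ⟨r, hr, by omega⟩ hk0 ⟨r, hr, hkr⟩ hkn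
  obtain ⟨_, F, hF, U, hU, hFU⟩ := h1
  by_contra hcon
  push Not at hcon
  have h2 : Set.range (flagMinor R m n k) ⊆ {0} := by
    rintro _ ⟨j, rfl⟩
    exact hcon j
  have h3 : F = 0 := by
    have h4 := Submodule.span_mono h2 hF
    simpa using h4
  rw [h3, map_zero] at hFU
  have h5 : U = 0 := by
    by_contra hU0
    exact mul_ne_zero (pow_ne_zero _ (X_ne0 _)) hU0 hFU.symm
  rw [h5, map_zero] at hU
  exact hU rfl

/-- **The system of the flag of determinantal ideals.** -/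
theorem sysF (hq : IsFlagType R m n q) :
    FSys (σ := Fin m × Fin n) (κ := fun t => FIdx R m n (q t)) (fun t => flagMinor R m n (q t))
      (flagNu R n (Finset.univ.sup q)) (flagOrd R q (Finset.univ.sup q)) where
  ne := fun t => flagMinor_ne hq.le_m (hq.pos t) (hq.mem t) (hq.le_n t)
  pos := fun d => by
    have h1 := d.2
    obtain ⟨t, ht⟩ := hq.complete (d + 1) (Nat.succ_pos _) h1
    have h2 : (d : ℕ) + 1 ≤ q t := by omega
    obtain ⟨r, hr, hqr⟩ := hq.mem t
    have h3 := blockEnd_mem (R := R) (q := d + 1) ⟨r, hr, by omega⟩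
    have h4 := hq.le_n t
    exact Nat.mul_pos (by omega) (by omega)
  roots := fun {τ} _ _ π hπ b H hH hb d l hl => by
    obtain ⟨t, ht⟩ := hq.complete (d + 1) (Nat.succ_pos _) d.2
    obtain ⟨x0, rfl⟩ := hπ t
    exact roots_d hq.le_m (fun x => q (π x)) (fun x => hq.pos _) (fun x => hq.mem _)
      (fun x => hq.le_n _) d x0 ht b H hb hH l hl

/-- The polynomial `∏ b, (∑_K y_{b,K} ∏_{β t = b} M_{K t}(x)) ^ a b` in the variables `y_{b,K}` and `x`:
for `b < B`, `K` runs over the choices of one generator `M_{K t}` of `J_(q t)` for each `t < T` with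
`β t = b`. -/
noncomputable def flagForm (R : Finset ℕ) (m n : ℕ) {T B : ℕ} (q : Fin T → ℕ) (β : Fin T → Fin B)
    (a : Fin B → ℕ) :
    MvPolynomial ((Σ b, ((t : {t // β t = b}) → FIdx R m n (q t.1))) ⊕ (Fin m × Fin n)) ℂ :=
  ∏ b, (∑ K : (t : {t // β t = b}) → FIdx R m n (q t.1), MvPolynomial.X (Sum.inl ⟨b, K⟩) *
    MvPolynomial.rename Sum.inr (∏ t, flagMinor R m n (q t.1) (K t))) ^ a b

theorem flagForm_eq {B : ℕ} (β : Fin T → Fin B) (a : Fin B → ℕ) :
    flagForm R m n q β a = powProd a (blkF (fun t => flagMinor R m n (q t)) β) := rfl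

/-- The multiplicities of `∏ b, F_b ^ a b`: `N_j = ∑ t, a (β t) max (min (q t) (blockEnd R j) - j + 1, 0)`
along `E_j`, `j = d + 1`, and `a b` along the strict transform of `F_b = 0`. -/
noncomputable def flagMul (R : Finset ℕ) {T B : ℕ} (q : Fin T → ℕ) (β : Fin T → Fin B)
    (a : Fin B → ℕ) : Fin (Finset.univ.sup q) ⊕ Fin B → ℕ :=
  Sum.elim (fun d => ∑ t, a (β t) * flagOrd R q _ d t) a

/-- The numbers `ν`: `flagNu` for `E_j`, and `1` for the strict transforms. -/
noncomputable def flagNuX (R : Finset ℕ) (n : ℕ) {T : ℕ} (q : Fin T → ℕ) (B : ℕ) :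
    Fin (Finset.univ.sup q) ⊕ Fin B → ℕ :=
  Sum.elim (flagNu R n _) fun _ => 1

/-- **The motivic form.** -/
theorem flag_mot {B : ℕ} (β : Fin T → Fin B) (a : Fin B → ℕ) (hq : IsFlagType R m n q)
    (ha : ∀ t, 0 < a (β t)) : ∃ P : Finset (ℤ × ℤ), (∀ q' ∈ P, q'.1 < 0 ∧ 0 < q'.2 ∧
      (∀ b : Polynomial ℂ, IsBFunction (flagForm R m n q β a) b →
        b.eval ((q'.1 : ℂ) / q'.2) = 0) ∧
      ∀ b : Polynomial ℂ, IsLocalBFunction (flagForm R m n q β a) b →
        b.eval ((q'.1 : ℂ) / q'.2) = 0) ∧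
    ∀ (R' : Type) [CommRing R'] (u : R'ˣ) (c : Finset {i // 0 < flagMul R q β a i} → R'),
      dlZ u (flagNuX R n q B) (flagMul R q β a) c ∈ ratU u (P : Set (ℤ × ℤ)) :=
  motX (sysF hq) β a ha

/-- **The topological form.** -/
theorem flag_top {B : ℕ} (β : Fin T → Fin B) (a : Fin B → ℕ) (hq : IsFlagType R m n q)
    (ha : ∀ t, 0 < a (β t)) (χ : Finset (Fin (Finset.univ.sup q) ⊕ Fin B) → ℤ) (s : ℂ)
    (hs : (topZ (flagNuX R n q B) (flagMul R q β a) χ).denom.eval s = 0) :
    (∀ b : Polynomial ℂ, IsBFunction (flagForm R m n q β a) b → b.eval s = 0) ∧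
      ∀ b : Polynomial ℂ, IsLocalBFunction (flagForm R m n q β a) b → b.eval s = 0 :=
  topX (sysF hq) β a ha χ s hs

end Pool.Agent.J6H66.FM
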